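import Pool.Agent.MWV.Stmts

set_option autoImplicit false

namespace Pool.Agent.MWV.H3

open Pool.Agent.Helper14_MV Pool.Agent.Helper2_MV Pool.Agent.MWV

/-- **DCB** -/
theorem dcb (h1 : DecStmt) (h2 : PpmStmt) (h3 : LbkStmt) : DcbStmt := by
  intro N S P Q g k d V H hd hV
  have hok := (h3 N g k d P Q H.wo.pos H.kp hd H.pm).1
  have hnd : (PP k P ++ PP k Q).Nodup :=
    ((h2 k P Q H.kp H.pm).1).nodup_iff.2 List.nodup_range
  exact h1 N S H.wo H.fc.sr H.fc.sl (PP k P) (PP k Q) (Lb N g k d) V hnd hok hV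

end Pool.Agent.MWV.H3
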