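import Pool.Agent.MWV.Stmts

set_option autoImplicit false

namespace Pool.Agent.MWV.H3

open Pool.Agent.Helper14_MV Pool.Agent.Helper2_MV Pool.Agent.MWV

theorem mem_tw (k e a : ℕ) :
    a ∈ tw k e ↔ (e = 0 ∧ a = 0) ∨ a = e + 1 ∨ (e = k ∧ a = k + 2) := by
  unfold tw
  by_cases h0 : e = 0 <;> by_cases h1 : e = k
  · subst h0
    simp only [if_true, if_pos h1]
    simp [← h1]
  · subst h0
    simp only [if_true, if_neg h1]
    simp [h1]
  · simp only [if_neg h0, if_pos h1]
    simp [h1]
    intro h2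
    exact absurd (h1.trans h2) h0
  · simp only [if_neg h0, if_neg h1]
    simp [h0, h1]

theorem flat_range (k : ℕ) : ∀ j, 1 ≤ j → j ≤ k → (List.range j).flatMap (tw k) = List.range (j + 1)
  | 0, h, _ => by omega
  | 1, _, h => by
    have h1 : ¬ (0 = k) := by omega
    have h2 : List.range 1 = [0] := rfl
    rw [h2, List.flatMap_singleton]
    unfold tw
    rw [if_pos rfl, if_neg h1]
    rfl
  | j + 2, _, h => by
    have ih := flat_range k (j + 1) (by omega) (by omega)
    rw [List.range_succ, List.flatMap_append, ih, List.flatMap_singleton, List.range_succ (n := j + 2)]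
    congr 1
    unfold tw
    rw [if_neg (by omega), if_neg (by omega)]
    rfl

/-- **PPM** -/
theorem ppm : PpmStmt := by
  intro k P Q hk hPQ
  have hle : ∀ e ∈ P ++ Q, e ≤ k := by
    intro e he
    have h1 := hPQ.mem_iff.1 he
    have h2 := List.mem_range.1 h1
    omega
  have hP : ∀ e ∈ P, e ≤ k := fun e he => hle e (List.mem_append_left _ he)
  have hQ : ∀ e ∈ Q, e ≤ k := fun e he => hle e (List.mem_append_right _ he)
  have hm : ∀ (L : List ℕ) (a : ℕ), a ∈ PP k L ↔
      ∃ e ∈ L, (e = 0 ∧ a = 0) ∨ a = e + 1 ∨ (e = k ∧ a = k + 2) := by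
    intro L a
    unfold PP
    rw [List.mem_flatMap]
    constructor
    · rintro ⟨e, he, h⟩
      exact ⟨e, he, (mem_tw k e a).1 h⟩
    · rintro ⟨e, he, h⟩
      exact ⟨e, he, (mem_tw k e a).2 h⟩
  have h1 : ∀ L : List ℕ, (∀ e ∈ L, e ≤ k) → ∀ i ≤ k, (i + 1 ∈ PP k L ↔ i ∈ L) := by
    intro L hL i hi
    rw [hm]
    constructor
    · rintro ⟨e, he, h⟩
      have h2 := hL e he
      have h3 : e = i := by omega
      rwa [← h3]
    · intro h
      exact ⟨i, h, Or.inr (Or.inl rfl)⟩
  refine ⟨?_, fun i hi => ⟨h1 Q hQ i hi, h1 P hP i hi⟩, ?_, ?_⟩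
  · have e1 : PP k P ++ PP k Q = (P ++ Q).flatMap (tw k) := by
      unfold PP
      rw [List.flatMap_append]
    have e2 : (List.range (k + 1)).flatMap (tw k) = List.range (k + 3) := by
      rw [List.range_succ, List.flatMap_append, flat_range k k hk le_rfl, List.flatMap_singleton,
        List.range_succ (n := k + 2), List.range_succ (n := k + 1), List.append_assoc]
      congr 1
      unfold tw
      rw [if_neg (by omega), if_pos rfl]
    rw [e1, ← e2]
    exact hPQ.flatMap_right _
  · rw [hm]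
    constructor
    · rintro ⟨e, he, h⟩
      have h3 : e = 0 := by omega
      rwa [← h3]
    · intro h
      exact ⟨0, h, Or.inl ⟨rfl, rfl⟩⟩
  · rw [hm]
    constructor
    · rintro ⟨e, he, h⟩
      have h2 := hQ e he
      have h3 : e = k := by omega
      rwa [← h3]
    · intro h
      exact ⟨k, h, Or.inr (Or.inr ⟨rfl, rfl⟩)⟩

end Pool.Agent.MWV.H3
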